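import Pool.Agent.H43.G.R_pool_sql_team_seeded_b3bd081e.H441R4.EH.Fin1
import Pool.Agent.H43.G.R_seed8.Helper112.Arith

/-!
Sets of integers as residues, at every level below `1`.
-/

set_option autoImplicit false

open Finset Filter

namespace Pool.Agent.H441R4.EH

open Pool.Agent.H441R3.BV
open Pool.Agent.H300R2.WEH
open Pool.Agent.H442R2.EHI (piAP)

/-- `|π(y; q, a) - π(y)/φ(q)|` for an integer `a` -/
noncomputable def dZ (y q : ℕ) (a : ℤ) : ℝ :=
  |(((Icc 1 y).filter (fun p : ℕ => p.Prime ∧ (p : ℤ) ≡ a [ZMOD q])).card : ℝ) -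
    (((Icc 1 y).filter (fun p : ℕ => p.Prime)).card : ℝ) / (Nat.totient q : ℝ)|

/-- the residue of `a` modulo `q` -/
def rs (q : ℕ) (a : ℤ) : ℕ := (a % (q : ℤ)).toNat

lemma rs_cast {q : ℕ} (hq : 1 ≤ q) (a : ℤ) : ((rs q a : ℕ) : ℤ) = a % (q : ℤ) := by
  unfold rs
  rw [Int.toNat_of_nonneg]
  exact Int.emod_nonneg _ (by exact_mod_cast (by omega : q ≠ 0))

lemma rs_modEq {q : ℕ} (hq : 1 ≤ q) (a : ℤ) : ((rs q a : ℕ) : ℤ) ≡ a [ZMOD q] := by
  rw [rs_cast hq]
  exact Int.mod_modEq a q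

lemma rs_mem {q : ℕ} (hq : 1 ≤ q) {a : ℤ} (ha : Int.gcd a q = 1) : rs q a ∈ rr q := by
  unfold rr
  rw [mem_filter, mem_range]
  constructor
  · have h1 : ((rs q a : ℕ) : ℤ) < q := by
      rw [rs_cast hq]
      exact Int.emod_lt_of_pos _ (by exact_mod_cast hq)
    exact_mod_cast h1
  · have h1 : Int.gcd ((rs q a : ℕ) : ℤ) (q : ℤ) = Int.gcd a q := by
      rw [rs_cast hq]
      exact Int.gcd_emod a q
    rw [ha] at h1
    have h2 : Int.gcd ((rs q a : ℕ) : ℤ) ((q : ℕ) : ℤ) = Nat.gcd (rs q a) q := by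
      simp
    rw [h2] at h1
    exact h1

lemma dZ_eq {q : ℕ} (hq : 1 ≤ q) (y : ℕ) (a : ℤ) : dZ y q a = dE y q (rs q a) := by
  unfold dZ dE piAP pin
  have h : (Icc 1 y).filter (fun p : ℕ => p.Prime ∧ (p : ℤ) ≡ a [ZMOD q]) =
      (Icc 1 y).filter (fun p : ℕ => p.Prime ∧ p ≡ rs q a [MOD q]) := by
    apply filter_congr
    intro p _
    have h1 := rs_modEq hq a
    constructor
    · rintro ⟨h2, h3⟩
      refine ⟨h2, ?_⟩
      rw [← Int.natCast_modEq_iff]
      exact h3.trans h1.symm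
    · rintro ⟨h2, h3⟩
      refine ⟨h2, ?_⟩
      rw [← Int.natCast_modEq_iff] at h3
      exact h3.trans h1
  rw [h]

lemma dZ_triv (q y : ℕ) (hq : 1 ≤ q) (a : ℤ) : dZ y q a ≤ y := by
  unfold dZ
  have hφ1 : (1 : ℝ) ≤ Nat.totient q := by exact_mod_cast Nat.totient_pos.mpr (by omega)
  have h2 : ((Icc 1 y).filter (fun p : ℕ => p.Prime ∧ (p : ℤ) ≡ a [ZMOD q])).card ≤ y := by
    refine (card_filter_le _ _).trans ?_
    simp
  have h3 : ((Icc 1 y).filter (fun p : ℕ => p.Prime)).card ≤ y := by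
    refine (card_filter_le _ _).trans ?_
    simp
  have h2' : (((Icc 1 y).filter (fun p : ℕ => p.Prime ∧ (p : ℤ) ≡ a [ZMOD q])).card : ℝ) ≤ y := by
    exact_mod_cast h2
  have h3' : (((Icc 1 y).filter (fun p : ℕ => p.Prime)).card : ℝ) ≤ y := by exact_mod_cast h3
  have h4 : (0:ℝ) ≤ (((Icc 1 y).filter (fun p : ℕ => p.Prime)).card : ℝ) := Nat.cast_nonneg _
  have h5 : (0:ℝ) ≤ (((Icc 1 y).filter (fun p : ℕ => p.Prime ∧ (p : ℤ) ≡ a [ZMOD q])).card : ℝ) :=
    Nat.cast_nonneg _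
  have h6 := div_le_self h4 hφ1
  have h7 : 0 ≤ (((Icc 1 y).filter (fun p : ℕ => p.Prime)).card : ℝ) / (Nat.totient q : ℝ) := by
    positivity
  rw [abs_le]
  constructor <;> linarith

open Classical in
/-- the elements of `S` coprime to `q` -/
noncomputable def SC (S : Finset ℤ) (q : ℕ) : Finset ℤ := S.filter (fun a => Int.gcd a q = 1)

/-- number of pairs of elements of `S` that are congruent modulo `q` -/
noncomputable def PP (S : Finset ℤ) (q : ℕ) : ℝ :=
  ∑ a ∈ S, ∑ a' ∈ S, if (q : ℤ) ∣ a - a' then (1:ℝ) else 0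

lemma PP_nonneg (S : Finset ℤ) (q : ℕ) : 0 ≤ PP S q :=
  sum_nonneg fun _ _ => sum_nonneg fun _ _ => by split_ifs <;> norm_num

lemma class_cs (S : Finset ℤ) (q : ℕ) (hq : 1 ≤ q) (t : ℕ → ℝ) (ht : ∀ b, 0 ≤ t b) :
    ∑ a ∈ SC S q, Real.sqrt (t (rs q a)) ≤ Real.sqrt (PP S q) * Real.sqrt (∑ b ∈ rr q, t b) := by
  classical
  have hmaps : ∀ a ∈ SC S q, rs q a ∈ rr q := by
    intro a ha
    unfold SC at ha
    rw [mem_filter] at ha
    exact rs_mem hq ha.2
  set m : ℕ → ℝ := fun b => (((SC S q).filter (fun a => rs q a = b)).card : ℝ) with hm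
  have e1 : ∑ a ∈ SC S q, Real.sqrt (t (rs q a)) = ∑ b ∈ rr q, m b * Real.sqrt (t b) := by
    rw [← sum_fiberwise_of_maps_to hmaps]
    apply sum_congr rfl
    intro b _
    rw [sum_congr rfl (g := fun _ => Real.sqrt (t b)), sum_const, nsmul_eq_mul]
    intro a ha
    rw [mem_filter] at ha
    rw [ha.2]
  have e2 : ∑ b ∈ rr q, m b ^ 2 ≤ PP S q := by
    have h1 : ∑ b ∈ rr q, m b ^ 2 = ∑ a ∈ SC S q, m (rs q a) := by
      rw [← sum_fiberwise_of_maps_to hmaps]
      apply sum_congr rfl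
      intro b _
      rw [sum_congr rfl (g := fun _ => m b), sum_const, nsmul_eq_mul, sq]
      intro a ha
      rw [mem_filter] at ha
      rw [ha.2]
    rw [h1]
    unfold PP
    calc ∑ a ∈ SC S q, m (rs q a) ≤ ∑ a ∈ SC S q, ∑ a' ∈ S, (if (q : ℤ) ∣ a - a' then (1:ℝ) else 0) := by
          apply sum_le_sum
          intro a _
          rw [sum_boole]
          simp only [hm]
          have hsub : (SC S q).filter (fun a' => rs q a' = rs q a) ⊆
              S.filter (fun a' => (q : ℤ) ∣ a - a') := by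
            intro a' ha'
            unfold SC at ha'
            rw [mem_filter, mem_filter] at ha'
            rw [mem_filter]
            refine ⟨ha'.1.1, ?_⟩
            have h2 := rs_modEq hq a'
            rw [ha'.2] at h2
            have h3 := h2.symm.trans (rs_modEq hq a)
            exact h3.dvd
          exact_mod_cast card_le_card hsub
      _ ≤ _ := by
          apply sum_le_sum_of_subset_of_nonneg
          · unfold SC; exact filter_subset _ _
          · intro _ _ _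
            exact sum_nonneg fun _ _ => by split_ifs <;> norm_num
  rw [e1, ← Real.sqrt_mul (PP_nonneg S q)]
  apply Real.le_sqrt_of_sq_le
  have h3 := sum_mul_sq_le_sq_mul_sq (rr q) m (fun b => Real.sqrt (t b))
  refine h3.trans ?_
  have h4 : ∑ b ∈ rr q, Real.sqrt (t b) ^ 2 = ∑ b ∈ rr q, t b := by
    apply sum_congr rfl
    intro b _
    exact Real.sq_sqrt (ht b)
  rw [h4]
  exact mul_le_mul_of_nonneg_right e2 (sum_nonneg fun b _ => ht b)

lemma sum_PP (S : Finset ℤ) (Q : ℕ) (D : ℝ) (hD0 : 0 ≤ D)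
    (hτ : ∀ a ∈ S, ∀ a' ∈ S, a ≠ a' → (((a - a').natAbs.divisors.card : ℕ) : ℝ) ≤ D) :
    ∑ q ∈ Icc 1 Q, PP S q ≤ S.card * (Q + S.card * D) := by
  classical
  unfold PP
  rw [sum_comm]
  calc ∑ a ∈ S, ∑ q ∈ Icc 1 Q, ∑ a' ∈ S, (if (q : ℤ) ∣ a - a' then (1:ℝ) else 0)
      ≤ ∑ a ∈ S, (Q + S.card * D) := by
        apply sum_le_sum
        intro a ha
        rw [sum_comm]
        rw [← sum_erase_add S _ ha, add_comm]
        apply add_le_add
        · simp
        · have h1 : ∀ a' ∈ S.erase a, ∑ q ∈ Icc 1 Q, (if (q : ℤ) ∣ a - a' then (1:ℝ) else 0) ≤ D := by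
            intro a' ha'
            rw [mem_erase] at ha'
            refine le_trans ?_ (hτ a ha a' ha'.2 (Ne.symm ha'.1))
            rw [sum_boole]
            have hsub : (Icc 1 Q).filter (fun q : ℕ => (q : ℤ) ∣ a - a') ⊆
                (a - a').natAbs.divisors := by
              intro q hq
              rw [mem_filter] at hq
              rw [Nat.mem_divisors]
              refine ⟨Int.natCast_dvd.1 hq.2, ?_⟩
              rw [Int.natAbs_ne_zero, sub_ne_zero]
              exact Ne.symm ha'.1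
            exact_mod_cast card_le_card hsub
          refine (sum_le_sum h1).trans ?_
          rw [sum_const, nsmul_eq_mul]
          apply mul_le_mul_of_nonneg_right _ hD0
          exact_mod_cast card_le_card (erase_subset a S)
    _ = S.card * (Q + S.card * D) := by rw [sum_const, nsmul_eq_mul]



lemma sqrt_add_le {a b : ℝ} (ha : 0 ≤ a) (hb : 0 ≤ b) :
    Real.sqrt (a + b) ≤ Real.sqrt a + Real.sqrt b := by
  apply Real.sqrt_le_iff.2
  refine ⟨by positivity, ?_⟩
  have h1 := Real.sq_sqrt ha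
  have h2 := Real.sq_sqrt hb
  have h3 : 0 ≤ Real.sqrt a * Real.sqrt b := by positivity
  nlinarith

theorem final2 (ε : ℝ) (hε : 0 < ε) (k U : ℕ) : ∃ (B : ℕ) (C : ℝ), 0 ≤ C ∧ ∀ N : ℕ, 3 ≤ N →
    ∀ Q : ℕ, (Q : ℝ) ≤ (N : ℝ) ^ (1 - ε) → ∀ S : Finset ℤ, (∀ a ∈ S, |(a : ℝ)| ≤ (N : ℝ) ^ k) →
    ∀ y : ℤ → ℕ → ℕ, (∀ a q, y a q ≤ N) →
    ∑ a ∈ S, ∑ q ∈ (Icc 1 Q).filter (fun q : ℕ => Int.gcd a q = 1), dZ (y a q) q a ≤
      C * (S.card * (N / Real.log N ^ U) +
        Real.sqrt S.card * (Q * Real.sqrt N * Real.log N ^ B)) := by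
  classical
  obtain ⟨C0, hC0, x1, hx13, hset⟩ := setup U (U + 4) le_rfl
  set r := U + 4 with hr
  set E := U + 7 + 2 * r with hE
  -- the divisor bound
  set δ : ℝ := ε / (2 * (k + 1)) with hδ
  have hδ0 : 0 < δ := by positivity
  obtain ⟨Ct, hCt, hdiv⟩ := Pool.Agent.Helper112.divisor_bound δ hδ0
  set K1 : ℝ := Ct * 2 ^ δ with hK1
  have hK10 : 0 < K1 := by positivity
  -- large `N`
  have evx : ∀ᶠ X : ℝ in atTop, (8000 * K1) * Real.log X ^ (E + 2 * U) ≤ X ^ (ε / 2) :=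
    Pool.Agent.H398R2.BV.ev_log (8000 * K1) (E + 2 * U) (ε / 2) (by positivity)
  have evN := tendsto_natCast_atTop_atTop (R := ℝ) |>.eventually evx
  obtain ⟨x0, hx0⟩ := eventually_atTop.1 (evN.and (eventually_ge_atTop x1))
  refine ⟨E, C0 + 100 + 2 * x0 * Real.log x0 ^ U, by
    have : 0 ≤ Real.log x0 := Real.log_natCast_nonneg _
    positivity, fun N hN Q hQ S hS y hy => ?_⟩
  have hlogx0 : 0 ≤ Real.log x0 := Real.log_natCast_nonneg _
  have hN3 : (3:ℝ) ≤ N := by exact_mod_cast hN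
  have hN0 : (0:ℝ) < N := by linarith
  have hN1 : (1:ℝ) ≤ N := by linarith
  have hlog1 : (1:ℝ) ≤ Real.log N := one_le_log hN
  have hQN : (Q:ℝ) ≤ N := by
    refine hQ.trans ?_
    calc (N:ℝ) ^ (1 - ε) ≤ (N:ℝ) ^ (1:ℝ) := Real.rpow_le_rpow_of_exponent_le hN1 (by linarith)
      _ = N := Real.rpow_one _
  have hQN' : Q ≤ N := by exact_mod_cast hQN
  rcases Nat.lt_or_ge N x0 with hlt | hge
  · have hNx : (N:ℝ) ≤ x0 := by exact_mod_cast hlt.le
    have hlogN : Real.log N ≤ Real.log x0 := Real.log_le_log (by linarith) hNx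
    have h1 : ∑ a ∈ S, ∑ q ∈ (Icc 1 Q).filter (fun q : ℕ => Int.gcd a q = 1), dZ (y a q) q a ≤
        ∑ a ∈ S, (N:ℝ) * N := by
      apply sum_le_sum
      intro a _
      calc ∑ q ∈ (Icc 1 Q).filter (fun q : ℕ => Int.gcd a q = 1), dZ (y a q) q a
          ≤ ∑ q ∈ (Icc 1 Q).filter (fun q : ℕ => Int.gcd a q = 1), (N:ℝ) := by
            apply sum_le_sum
            intro q hq
            rw [mem_filter, mem_Icc] at hq
            refine (dZ_triv q (y a q) hq.1.1 a).trans ?_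
            exact_mod_cast hy a q
        _ = (((Icc 1 Q).filter (fun q : ℕ => Int.gcd a q = 1)).card : ℝ) * N := by
            rw [sum_const, nsmul_eq_mul]
        _ ≤ (N:ℝ) * N := by
            apply mul_le_mul_of_nonneg_right _ hN0.le
            have h2 : ((Icc 1 Q).filter (fun q : ℕ => Int.gcd a q = 1)).card ≤ N := by
              refine (card_filter_le _ _).trans ?_
              simpa using hQN'
            exact_mod_cast h2
    refine h1.trans ?_
    rw [sum_const, nsmul_eq_mul]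
    have hpow : Real.log N ^ U ≤ Real.log x0 ^ U := pow_le_pow_left₀ (by linarith) hlogN U
    have hpos : 0 < Real.log N ^ U := by positivity
    have h3 : (N:ℝ) * N ≤ 2 * x0 * Real.log x0 ^ U * (N / Real.log N ^ U) := by
      have hone : 1 ≤ Real.log x0 ^ U / Real.log N ^ U := by
        rw [le_div_iff₀ hpos]; linarith
      calc (N:ℝ) * N ≤ (2 * x0 * N) * 1 := by nlinarith
        _ ≤ (2 * x0 * N) * (Real.log x0 ^ U / Real.log N ^ U) := by gcongr
        _ = _ := by ring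
    have hK : (0:ℝ) ≤ S.card := Nat.cast_nonneg _
    have h4 : 0 ≤ (C0 + 100) * ((N:ℝ) / Real.log N ^ U) := by positivity
    have h5 : 0 ≤ (C0 + 100 + 2 * x0 * Real.log x0 ^ U) * (Real.sqrt S.card *
        (Q * Real.sqrt N * Real.log N ^ E)) := by positivity
    have h6 : (S.card : ℝ) * ((N:ℝ) * N) ≤ S.card * ((C0 + 100 + 2 * x0 * Real.log x0 ^ U) *
        (N / Real.log N ^ U)) := by
      apply mul_le_mul_of_nonneg_left _ hK
      linarith
    linarith
  · obtain ⟨hev, hNx1⟩ := hx0 N hge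
    obtain ⟨w1, R, NN, h, hh0, hcard, hsum, hSg, hpt⟩ := hset N hNx1
    set Λ := Real.log N with hΛ
    have hΛ0 : 0 < Λ := by linarith
    set K : ℝ := (S.card : ℝ) with hK
    have hK0 : 0 ≤ K := Nat.cast_nonneg _
    -- the divisor bound for differences
    set D : ℝ := K1 * (N:ℝ) ^ (ε / 2) with hD
    have hD0 : 0 ≤ D := by positivity
    have hτ : ∀ a ∈ S, ∀ a' ∈ S, a ≠ a' → (((a - a').natAbs.divisors.card : ℕ) : ℝ) ≤ D := by
      intro a ha a' ha' hne
      have h1 : 1 ≤ (a - a').natAbs := by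
        have : (a - a').natAbs ≠ 0 := by
          rw [Int.natAbs_ne_zero, sub_ne_zero]
          exact hne
        omega
      refine (hdiv _ h1).trans ?_
      have h2 : (((a - a').natAbs : ℕ) : ℝ) ≤ 2 * (N:ℝ) ^ k := by
        rw [Nat.cast_natAbs]
        push_cast
        have h3 := hS a ha
        have h4 := hS a' ha'
        calc |(a:ℝ) - a'| ≤ |(a:ℝ)| + |(a':ℝ)| := abs_sub _ _
          _ ≤ 2 * (N:ℝ) ^ k := by linarith
      have h5 : (((a - a').natAbs : ℕ) : ℝ) ^ δ ≤ (2 * (N:ℝ) ^ k) ^ δ :=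
        Real.rpow_le_rpow (Nat.cast_nonneg _) h2 hδ0.le
      have h6 : (2 * (N:ℝ) ^ k) ^ δ ≤ 2 ^ δ * (N:ℝ) ^ (ε / 2) := by
        rw [Real.mul_rpow (by norm_num) (by positivity), ← Real.rpow_natCast, ← Real.rpow_mul hN0.le]
        apply mul_le_mul_of_nonneg_left _ (by positivity)
        apply Real.rpow_le_rpow_of_exponent_le hN1
        rw [hδ, mul_div_assoc', div_le_div_iff₀ (by positivity) (by norm_num)]
        have : (0:ℝ) ≤ k := Nat.cast_nonneg _
        nlinarith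
      rw [hD, hK1]
      calc Ct * (((a - a').natAbs : ℕ) : ℝ) ^ δ ≤ Ct * (2 ^ δ * (N:ℝ) ^ (ε / 2)) := by
            gcongr
            exact h5.trans h6
        _ = _ := by ring
    -- pointwise
    have hpt2 : ∀ a ∈ S, ∀ q ∈ (Icc 1 Q).filter (fun q : ℕ => Int.gcd a q = 1),
        dZ (y a q) q a ≤ Real.sqrt (∑ v ∈ NN, ‖TT R v q (rs q a)‖ ^ 2) + h q := by
      intro a _ q hq
      rw [mem_filter, mem_Icc] at hq
      obtain ⟨⟨hq1, hqQ⟩, hco⟩ := hq
      have hmem := rs_mem hq1 hco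
      unfold rr at hmem
      rw [mem_filter] at hmem
      obtain ⟨v, hv, h1⟩ := hpt q hq1 (hqQ.trans hQN') (rs q a) hmem.2 (y a q) (hy a q)
      rw [dZ_eq hq1]
      refine h1.trans ?_
      have h2 : ‖TT R v q (rs q a)‖ ≤ Real.sqrt (∑ v ∈ NN, ‖TT R v q (rs q a)‖ ^ 2) := by
        apply Real.le_sqrt_of_sq_le
        exact single_le_sum (f := fun v => ‖TT R v q (rs q a)‖ ^ 2)
          (fun _ _ => by positivity) hv
      linarith
    set t : ℕ → ℕ → ℝ := fun q b => ∑ v ∈ NN, ‖TT R v q b‖ ^ 2 with ht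
    have ht0 : ∀ q b, 0 ≤ t q b := fun q b => sum_nonneg fun _ _ => by positivity
    have hmain : ∑ a ∈ S, ∑ q ∈ (Icc 1 Q).filter (fun q : ℕ => Int.gcd a q = 1), dZ (y a q) q a ≤
        ∑ q ∈ Icc 1 Q, ∑ a ∈ SC S q, Real.sqrt (t q (rs q a)) + K * ∑ q ∈ Icc 1 N, h q := by
      calc ∑ a ∈ S, ∑ q ∈ (Icc 1 Q).filter (fun q : ℕ => Int.gcd a q = 1), dZ (y a q) q a
          ≤ ∑ a ∈ S, ∑ q ∈ (Icc 1 Q).filter (fun q : ℕ => Int.gcd a q = 1),
            (Real.sqrt (t q (rs q a)) + h q) :=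
            sum_le_sum fun a ha => sum_le_sum fun q hq => hpt2 a ha q hq
        _ = ∑ a ∈ S, ∑ q ∈ (Icc 1 Q).filter (fun q : ℕ => Int.gcd a q = 1),
              Real.sqrt (t q (rs q a)) +
            ∑ a ∈ S, ∑ q ∈ (Icc 1 Q).filter (fun q : ℕ => Int.gcd a q = 1), h q := by
            rw [← sum_add_distrib]
            apply sum_congr rfl
            intro a _
            rw [sum_add_distrib]
        _ ≤ _ := by
            apply add_le_add
            · apply le_of_eq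
              unfold SC
              simp only [sum_filter]
              exact sum_comm
            · calc ∑ a ∈ S, ∑ q ∈ (Icc 1 Q).filter (fun q : ℕ => Int.gcd a q = 1), h q
                  ≤ ∑ a ∈ S, ∑ q ∈ Icc 1 N, h q := by
                    apply sum_le_sum
                    intro a _
                    apply sum_le_sum_of_subset_of_nonneg
                    · intro q hq
                      rw [mem_filter, mem_Icc] at hq
                      rw [mem_Icc]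
                      omega
                    · intro q _ _
                      exact hh0 q
                _ = K * ∑ q ∈ Icc 1 N, h q := by rw [sum_const, nsmul_eq_mul]
    have hcs1 : ∑ q ∈ Icc 1 Q, ∑ a ∈ SC S q, Real.sqrt (t q (rs q a)) ≤
        ∑ q ∈ Icc 1 Q, Real.sqrt (q * PP S q) * Real.sqrt ((1 / (q:ℝ)) * Sg NN R q) := by
      apply sum_le_sum
      intro q hq
      rw [mem_Icc] at hq
      have hq0 : (0:ℝ) < q := by exact_mod_cast hq.1
      refine (class_cs S q hq.1 (t q) (ht0 q)).trans (le_of_eq ?_)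
      have e0 : ∑ b ∈ rr q, t q b = Sg NN R q := rfl
      rw [e0, ← Real.sqrt_mul (PP_nonneg S q), ← Real.sqrt_mul (by
        have := PP_nonneg S q
        positivity)]
      congr 1
      field_simp
    have hcs2 : ∑ q ∈ Icc 1 Q, Real.sqrt (q * PP S q) * Real.sqrt ((1 / (q:ℝ)) * Sg NN R q) ≤
        Real.sqrt (∑ q ∈ Icc 1 Q, q * PP S q) *
          Real.sqrt (∑ q ∈ Icc 1 Q, (1 / (q:ℝ)) * Sg NN R q) :=
      Real.sum_sqrt_mul_sqrt_le (Icc 1 Q) (f := fun q : ℕ => (q:ℝ) * PP S q)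
        (g := fun q : ℕ => (1 / (q:ℝ)) * Sg NN R q)
        (fun q => by
          have := PP_nonneg S q
          positivity) (fun q => by
          have := Sg_nonneg NN R q
          positivity)
    have hA1 : ∑ q ∈ Icc 1 Q, (q:ℝ) * PP S q ≤ Q * (K * (Q + K * D)) := by
      calc ∑ q ∈ Icc 1 Q, (q:ℝ) * PP S q ≤ ∑ q ∈ Icc 1 Q, (Q:ℝ) * PP S q := by
            apply sum_le_sum
            intro q hq
            rw [mem_Icc] at hq
            have h1 : (q:ℝ) ≤ Q := by exact_mod_cast hq.2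
            exact mul_le_mul_of_nonneg_right h1 (PP_nonneg S q)
        _ = (Q:ℝ) * ∑ q ∈ Icc 1 Q, PP S q := by rw [mul_sum]
        _ ≤ _ := mul_le_mul_of_nonneg_left (sum_PP S Q D hD0 hτ) (Nat.cast_nonneg _)
    have hA2 : ∑ q ∈ Icc 1 Q, (1 / (q:ℝ)) * Sg NN R q ≤ 8000 * N * Λ ^ E := by
      refine le_trans ?_ hSg
      apply sum_le_sum_of_subset_of_nonneg (Icc_subset_Icc_right hQN')
      intro q _ _
      have := Sg_nonneg NN R q
      positivity
    have hQ0 : (0:ℝ) ≤ Q := Nat.cast_nonneg _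
    have hprod : Real.sqrt (∑ q ∈ Icc 1 Q, q * PP S q) *
          Real.sqrt (∑ q ∈ Icc 1 Q, (1 / (q:ℝ)) * Sg NN R q) ≤
        90 * (Real.sqrt K * (Q * Real.sqrt N * Λ ^ E)) + K * (N / Λ ^ U) := by
      have h1 : Real.sqrt (∑ q ∈ Icc 1 Q, q * PP S q) *
          Real.sqrt (∑ q ∈ Icc 1 Q, (1 / (q:ℝ)) * Sg NN R q) ≤
          Real.sqrt ((Q * (K * (Q + K * D))) * (8000 * N * Λ ^ E)) := by
        rw [Real.sqrt_mul (by positivity)]
        exact mul_le_mul (Real.sqrt_le_sqrt hA1) (Real.sqrt_le_sqrt hA2) (Real.sqrt_nonneg _)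
          (Real.sqrt_nonneg _)
      refine h1.trans ?_
      have e1 : (Q * (K * (Q + K * D))) * (8000 * N * Λ ^ E) =
          8000 * K * Q ^ 2 * N * Λ ^ E + K ^ 2 * (8000 * (Q * D) * N * Λ ^ E) := by ring
      rw [e1]
      refine (sqrt_add_le (by positivity) (by positivity)).trans ?_
      apply add_le_add
      · apply Real.sqrt_le_iff.2
        refine ⟨by positivity, ?_⟩
        have s1 : Real.sqrt K ^ 2 = K := Real.sq_sqrt hK0
        have s2 : Real.sqrt N ^ 2 = N := Real.sq_sqrt hN0.le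
        have e2 : (90 * (Real.sqrt K * (Q * Real.sqrt N * Λ ^ E))) ^ 2 =
            8100 * Real.sqrt K ^ 2 * Q ^ 2 * Real.sqrt N ^ 2 * (Λ ^ E * Λ ^ E) := by ring
        rw [e2, s1, s2]
        have h2 : Λ ^ E ≤ Λ ^ E * Λ ^ E :=
          le_mul_of_one_le_left (by positivity) (one_le_pow₀ (by linarith))
        gcongr
        norm_num
      · apply Real.sqrt_le_iff.2
        refine ⟨by positivity, ?_⟩
        have h2 : 8000 * ((Q:ℝ) * D) * N * Λ ^ E ≤ (N / Λ ^ U) ^ 2 := by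
          rw [div_pow, le_div_iff₀ (by positivity)]
          have h3 : (Q:ℝ) * D ≤ K1 * (N:ℝ) ^ (1 - ε / 2) := by
            calc (Q:ℝ) * D ≤ (N:ℝ) ^ (1 - ε) * (K1 * (N:ℝ) ^ (ε / 2)) := by
                  rw [hD]
                  gcongr
              _ = K1 * ((N:ℝ) ^ (1 - ε) * (N:ℝ) ^ (ε / 2)) := by ring
              _ = K1 * (N:ℝ) ^ (1 - ε / 2) := by
                  rw [← Real.rpow_add hN0]
                  congr 2
                  ring
          calc 8000 * ((Q:ℝ) * D) * N * Λ ^ E * (Λ ^ U) ^ 2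
              ≤ 8000 * (K1 * (N:ℝ) ^ (1 - ε / 2)) * N * Λ ^ E * (Λ ^ U) ^ 2 := by gcongr
            _ = (8000 * K1 * Λ ^ (E + 2 * U)) * (N:ℝ) ^ (1 - ε / 2) * N := by
                rw [pow_add, pow_mul']
                ring
            _ ≤ (N:ℝ) ^ (ε / 2) * (N:ℝ) ^ (1 - ε / 2) * N := by gcongr
            _ = (N:ℝ) ^ 2 := by
                rw [← Real.rpow_add hN0]
                have : ε / 2 + (1 - ε / 2) = 1 := by ring
                rw [this, Real.rpow_one]
                ring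
        calc K ^ 2 * (8000 * (Q * D) * N * Λ ^ E) ≤ K ^ 2 * (N / Λ ^ U) ^ 2 := by gcongr
          _ = (K * (N / Λ ^ U)) ^ 2 := by ring
    have hs1 : K * ∑ q ∈ Icc 1 N, h q ≤ K * (C0 * (N / Λ ^ U)) :=
      mul_le_mul_of_nonneg_left hsum hK0
    have p1 : 0 ≤ K * (N / Λ ^ U) := by positivity
    have p2 : 0 ≤ Real.sqrt K * (Q * Real.sqrt N * Λ ^ E) := by positivity
    have p3 : 0 ≤ 2 * (x0:ℝ) * Real.log x0 ^ U := by positivity
    set u := K * (N / Λ ^ U) with hu
    set w := Real.sqrt K * (Q * Real.sqrt N * Λ ^ E) with hw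
    have hs2 : K * ∑ q ∈ Icc 1 N, h q ≤ C0 * u := by
      refine hs1.trans (le_of_eq ?_)
      rw [hu]
      ring
    have q1 : 0 ≤ (2 * (x0:ℝ) * Real.log x0 ^ U) * (u + w) := by positivity
    have q2 : 0 ≤ C0 * w := by positivity
    have e : (C0 + 100 + 2 * x0 * Real.log x0 ^ U) * (u + w) = C0 * u + C0 * w + 100 * u + 100 * w +
        (2 * x0 * Real.log x0 ^ U) * (u + w) := by ring
    rw [e]
    linarith

end Pool.Agent.H441R4.EH
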