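import Pool.Agent.H43.G.R_seed8.H441R3.BV.Fin

/-!
Residue classes and characters, split by the size of the conductor.
-/

set_option autoImplicit false

open Finset

namespace Pool.Agent.H441R4.EH

open Pool.Agent.H398R2.BV (Prim card_prim_le)
open Pool.Agent.Helper112
open Pool.Agent.H441R3.BV
open Pool.Agent.H442R2.EHI (piAP)

open Classical in
/-- the nontrivial characters mod `m` whose conductor satisfies `P` -/
noncomputable def XX (m : ℕ) (P : ℕ → Prop) : Finset (DirichletCharacter ℂ m) :=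
  (univ : Finset (DirichletCharacter ℂ m)).filter (fun χ => χ ≠ 1 ∧ P χ.conductor)

lemma mem_XX {m : ℕ} {P : ℕ → Prop} {χ : DirichletCharacter ℂ m} :
    χ ∈ XX m P ↔ χ ≠ 1 ∧ P χ.conductor := by
  classical
  unfold XX
  rw [mem_filter]
  exact ⟨fun h => h.2, fun h => ⟨mem_univ _, h⟩⟩

lemma step2P (m : ℕ) [NeZero m] (P : ℕ → Prop) [DecidablePred P] (w : DirichletCharacter ℂ m → ℝ)
    (hw : ∀ χ, 0 ≤ w χ) (W : (f : ℕ) → DirichletCharacter ℂ f → ℝ)
    (hW : ∀ f (h : f ∣ m) (ψ : DirichletCharacter ℂ f),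
      w (DirichletCharacter.changeLevel h ψ) ≤ W f ψ) :
    ∑ χ ∈ XX m P, w χ ≤
      ∑ f ∈ m.divisors.filter (fun f => f ≠ 1), if P f then ∑ ψ ∈ Prim f, W f ψ else 0 := by
  classical
  rw [← sum_filter, filter_filter]
  have h1 : ∀ χ ∈ XX m P, χ.conductor ∈ m.divisors.filter (fun f => f ≠ 1 ∧ P f) := by
    intro χ hχ
    rw [mem_XX] at hχ
    rw [mem_filter]
    refine ⟨Nat.mem_divisors.mpr ⟨χ.conductor_dvd_level, NeZero.ne m⟩, ?_, hχ.2⟩
    intro h
    exact hχ.1 (DirichletCharacter.eq_one_iff_conductor_eq_one.mpr h)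
  rw [← sum_fiberwise_of_maps_to h1]
  apply sum_le_sum
  intro f hf
  rw [mem_filter, Nat.mem_divisors] at hf
  have hfm := hf.1.1
  have h2 : ((XX m P).filter (fun χ => χ.conductor = f)) ⊆
      (Prim f).image (DirichletCharacter.changeLevel hfm) := by
    intro χ hχ
    rw [mem_filter] at hχ
    obtain ⟨_, hc⟩ := hχ
    subst hc
    rw [mem_image]
    exact ⟨χ.primitiveCharacter, by
      unfold Prim
      rw [mem_filter]; exact ⟨mem_univ _, χ.primitiveCharacter_isPrimitive⟩,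
      χ.changeLevel_primitiveCharacter⟩
  calc _ ≤ ∑ χ ∈ (Prim f).image (DirichletCharacter.changeLevel hfm), w χ :=
        sum_le_sum_of_subset_of_nonneg h2 fun χ _ _ => hw χ
    _ = ∑ ψ ∈ Prim f, w (DirichletCharacter.changeLevel hfm ψ) := by
        rw [sum_image]
        intro x _ y _ hxy
        exact DirichletCharacter.changeLevel_injective hfm hxy
    _ ≤ _ := sum_le_sum fun ψ _ => hW f hfm ψ

lemma char_inv_apply (q : ℕ) [NeZero q] (a : ℕ) (ha : a.Coprime q) (χ : DirichletCharacter ℂ q) :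
    χ ((a : ZMod q)⁻¹) = χ⁻¹ (a : ZMod q) := by
  have h1 : (a : ZMod q) * (a : ZMod q)⁻¹ = 1 := ZMod.coe_mul_inv_eq_one a ha
  have h2 : χ (a : ZMod q) * χ ((a : ZMod q)⁻¹) = 1 := by rw [← map_mul, h1, map_one]
  rw [MulChar.inv_apply_eq_inv']
  exact eq_inv_of_mul_eq_one_right h2

/-- orthogonality in the residues -/
lemma orth (q : ℕ) [NeZero q] (X : Finset (DirichletCharacter ℂ q))
    (c : DirichletCharacter ℂ q → ℂ) :
    ∑ a ∈ rr q, ‖∑ χ ∈ X, χ ((a : ZMod q)⁻¹) * c χ‖ ^ 2 ≤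
      (Nat.totient q : ℝ) * ∑ χ ∈ X, ‖c χ‖ ^ 2 := by
  classical
  set g : ZMod q → ℂ := fun x => ∑ χ ∈ X, χ⁻¹ x * c χ with hg
  have e1 : ∑ a ∈ rr q, ‖∑ χ ∈ X, χ ((a : ZMod q)⁻¹) * c χ‖ ^ 2 =
      ∑ a ∈ rr q, ‖g (a : ZMod q)‖ ^ 2 := by
    apply sum_congr rfl
    intro a ha
    unfold rr at ha
    rw [mem_filter] at ha
    simp only [hg]
    congr 2
    apply sum_congr rfl
    intro χ _
    rw [char_inv_apply q a ha.2 χ]
  have e2 : ∑ a ∈ rr q, ‖g (a : ZMod q)‖ ^ 2 ≤ ∑ a ∈ range q, ‖g (a : ZMod q)‖ ^ 2 := by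
    apply sum_le_sum_of_subset_of_nonneg
    · unfold rr; exact filter_subset _ _
    · intro _ _ _; positivity
  have e3 : ((∑ a ∈ range q, ‖g (a : ZMod q)‖ ^ 2 : ℝ) : ℂ) = ∑ x : ZMod q, g x * star (g x) := by
    push_cast
    rw [← sum_range_char q (fun x => g x * star (g x))]
    apply sum_congr rfl
    intro a _
    rw [Complex.star_def, Complex.mul_conj, Complex.normSq_eq_norm_sq]
    push_cast
    rfl
  have e4 : ∀ x : ZMod q, g x * star (g x) =
      ∑ χ ∈ X, ∑ χ' ∈ X, c χ * star (c χ') * (χ⁻¹ * χ') x := by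
    intro x
    simp only [hg]
    rw [star_sum, sum_mul_sum]
    apply sum_congr rfl
    intro χ _
    apply sum_congr rfl
    intro χ' _
    rw [star_mul', MulChar.star_apply', inv_inv, MulChar.mul_apply]
    ring
  have e5 : ∑ x : ZMod q, g x * star (g x) =
      ∑ χ ∈ X, c χ * star (c χ) * (Nat.totient q : ℂ) := by
    simp only [e4]
    rw [sum_comm]
    apply sum_congr rfl
    intro χ hχ
    rw [sum_comm]
    rw [sum_eq_single χ]
    · rw [← mul_sum, inv_mul_cancel, MulChar.sum_one_eq_card_units, ZMod.card_units_eq_totient]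
    · intro χ' _ hne
      rw [← mul_sum, MulChar.sum_eq_zero_of_ne_one, mul_zero]
      intro h
      exact hne (inv_mul_eq_one.1 h).symm
    · intro h
      exact absurd hχ h
  have e6 : ∑ a ∈ range q, ‖g (a : ZMod q)‖ ^ 2 = (Nat.totient q : ℝ) * ∑ χ ∈ X, ‖c χ‖ ^ 2 := by
    have h1 : ((∑ a ∈ range q, ‖g (a : ZMod q)‖ ^ 2 : ℝ) : ℂ) =
        (((Nat.totient q : ℝ) * ∑ χ ∈ X, ‖c χ‖ ^ 2 : ℝ) : ℂ) := by
      rw [e3, e5]
      push_cast
      rw [mul_sum]
      apply sum_congr rfl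
      intro χ _
      rw [Complex.star_def, Complex.mul_conj, Complex.normSq_eq_norm_sq]
      push_cast
      ring
    exact_mod_cast h1
  rw [e1]
  exact e2.trans e6.le

/-- the part of the discrepancy from the characters of large conductor -/
noncomputable def TT (R v q a : ℕ) : ℂ :=
  (1 / (Nat.totient q : ℂ)) * ∑ χ ∈ XX q (fun f => R < f), χ ((a : ZMod q)⁻¹) * PS v q χ

/-- the number of primes up to `v` -/
noncomputable def pin (v : ℕ) : ℝ := (((Icc 1 v).filter (fun p : ℕ => p.Prime)).card : ℝ)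

/-- the discrepancy -/
noncomputable def dE (v q a : ℕ) : ℝ := |piAP v q a - pin v / (Nat.totient q : ℝ)|

/-- residue classes from characters -/
theorem class_split (R d N a : ℕ) (hd : 1 ≤ d) (ha : a.Coprime d) :
    dE N d a ≤ ‖TT R N d a‖ +
      (1 / (Nat.totient d : ℝ)) * ∑ χ ∈ XX d (fun f => f ≤ R), ‖PS N d χ‖ +
      (d.primeFactors.card : ℝ) * (1 / (Nat.totient d : ℝ)) := by
  classical
  have : NeZero d := ⟨by omega⟩
  have hφ1 : (1 : ℝ) ≤ Nat.totient d := by exact_mod_cast Nat.totient_pos.mpr (by omega)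
  have hφ : (0 : ℝ) < Nat.totient d := by linarith
  set w : ℝ := (d.primeFactors.card : ℝ) with hw
  set pd : ℝ := (((Icc 1 N).filter (fun p : ℕ => p.Prime ∧ p.Coprime d)).card : ℝ) with hpd
  set p1 : ℝ := pin N with hp1
  -- step 1
  have s1 : |piAP N d a - pd / (Nat.totient d : ℝ)| ≤ ‖TT R N d a‖ +
      (1 / (Nat.totient d : ℝ)) * ∑ χ ∈ XX d (fun f => f ≤ R), ‖PS N d χ‖ := by
    have e1 : piAP N d a - pd / (Nat.totient d : ℝ) =
        ∑ n ∈ Icc 1 N, (if n.Prime then (1:ℝ) else 0) * ((if n ≡ a [MOD d] then (1 : ℝ) else 0) -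
        (if n.Coprime d then (1 : ℝ) / (Nat.totient d : ℝ) else 0)) := by
      have e2 : piAP N d a = ∑ n ∈ Icc 1 N, (if n.Prime then (1:ℝ) else 0) * (if n ≡ a [MOD d] then (1 : ℝ) else 0) := by
        unfold piAP
        rw [← sum_boole]
        apply sum_congr rfl
        intro n _
        by_cases h1 : n.Prime <;> by_cases h2 : n ≡ a [MOD d] <;> simp [h1, h2]
      have e3 : pd / (Nat.totient d : ℝ) = ∑ n ∈ Icc 1 N, (if n.Prime then (1:ℝ) else 0) *
          (if n.Coprime d then (1 : ℝ) / (Nat.totient d : ℝ) else 0) := by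
        rw [hpd, ← sum_boole, sum_div]
        apply sum_congr rfl
        intro n _
        by_cases h1 : n.Prime
        · by_cases h2 : n.Coprime d
          · rw [if_pos ⟨h1, h2⟩, if_pos h1, if_pos h2]; ring
          · rw [if_neg (by tauto), if_neg h2]; ring
        · rw [if_neg (by tauto), if_neg h1]; ring
      rw [e2, e3, ← sum_sub_distrib]
      apply sum_congr rfl
      intro n _
      ring
    have e2 : ((∑ n ∈ Icc 1 N, (if n.Prime then (1:ℝ) else 0) * ((if n ≡ a [MOD d] then (1 : ℝ) else 0) -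
        (if n.Coprime d then (1 : ℝ) / (Nat.totient d : ℝ) else 0)) : ℝ) : ℂ) =
        (1 / (Nat.totient d : ℂ)) *
        ∑ χ ∈ (univ : Finset (DirichletCharacter ℂ d)).filter (fun χ => χ ≠ 1),
          χ ((a : ZMod d)⁻¹) * PS N d χ := by
      rw [Complex.ofReal_sum]
      have : ∀ n ∈ Icc 1 N, (((if n.Prime then (1:ℝ) else 0) * ((if n ≡ a [MOD d] then (1 : ℝ) else 0) -
        (if n.Coprime d then (1 : ℝ) / (Nat.totient d : ℝ) else 0)) : ℝ) : ℂ) =
          ∑ χ ∈ (univ : Finset (DirichletCharacter ℂ d)).filter (fun χ => χ ≠ 1),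
            (1 / (Nat.totient d : ℂ)) * (χ ((a : ZMod d)⁻¹) *
              (((if n.Prime then (1:ℝ) else 0 : ℝ) : ℂ) * χ (n : ZMod d))) := by
        intro n _
        rw [Complex.ofReal_mul, BLB.bracket d a ha n, mul_sum, mul_sum]
        apply sum_congr rfl
        intro χ _
        ring
      rw [sum_congr rfl this, sum_comm, mul_sum]
      apply sum_congr rfl
      intro χ _
      unfold PS
      rw [mul_sum, mul_sum]
    have e3 : ∑ χ ∈ (univ : Finset (DirichletCharacter ℂ d)).filter (fun χ => χ ≠ 1),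
          χ ((a : ZMod d)⁻¹) * PS N d χ =
        ∑ χ ∈ XX d (fun f => R < f), χ ((a : ZMod d)⁻¹) * PS N d χ +
        ∑ χ ∈ XX d (fun f => f ≤ R), χ ((a : ZMod d)⁻¹) * PS N d χ := by
      rw [← sum_filter_add_sum_filter_not _ (fun χ : DirichletCharacter ℂ d => R < χ.conductor)]
      congr 1
      · apply sum_congr _ (fun _ _ => rfl)
        ext χ
        rw [mem_filter, mem_filter, mem_XX]
        exact ⟨fun h => ⟨h.1.2, h.2⟩, fun h => ⟨⟨mem_univ _, h.1⟩, h.2⟩⟩
      · apply sum_congr _ (fun _ _ => rfl)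
        ext χ
        rw [mem_filter, mem_filter, mem_XX, not_lt]
        exact ⟨fun h => ⟨h.1.2, h.2⟩, fun h => ⟨⟨mem_univ _, h.1⟩, h.2⟩⟩
    rw [e1, ← Real.norm_eq_abs, ← Complex.norm_real, e2, e3, mul_add]
    refine (norm_add_le _ _).trans ?_
    have h1 : ‖(1 / (Nat.totient d : ℂ))‖ = 1 / (Nat.totient d : ℝ) := by
      rw [norm_div, norm_one, Complex.norm_natCast]
    refine add_le_add le_rfl ?_
    rw [norm_mul, h1]
    apply mul_le_mul_of_nonneg_left _ (by positivity)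
    refine (norm_sum_le _ _).trans (sum_le_sum ?_)
    intro χ _
    rw [norm_mul]
    have : ‖χ ((a : ZMod d)⁻¹)‖ ≤ 1 := χ.norm_le_one _
    calc ‖χ ((a : ZMod d)⁻¹)‖ * ‖PS N d χ‖ ≤ 1 * ‖PS N d χ‖ :=
          mul_le_mul_of_nonneg_right this (norm_nonneg _)
      _ = _ := one_mul _
  -- step 3
  have s3 : |pd - p1| ≤ w := by
    have h1 : p1 = pd + (((Icc 1 N).filter (fun n => n.Prime ∧ ¬ n.Coprime d)).card : ℝ) := by
      rw [hp1, hpd, pin, ← sum_boole, ← sum_boole, ← sum_boole, ← sum_add_distrib]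
      apply sum_congr rfl
      intro n _
      by_cases h1 : n.Prime <;> by_cases h2 : n.Coprime d <;> simp [h1, h2]
    have h2 : (((Icc 1 N).filter (fun n => n.Prime ∧ ¬ n.Coprime d)).card : ℝ) ≤ w := by
      have : (Icc 1 N).filter (fun n => n.Prime ∧ ¬ n.Coprime d) ⊆ d.primeFactors := by
        intro n hn
        rw [mem_filter] at hn
        rw [Nat.mem_primeFactors]
        refine ⟨hn.2.1, ?_, by omega⟩
        by_contra hcon
        exact hn.2.2 ((Nat.Prime.coprime_iff_not_dvd hn.2.1).2 hcon)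
      rw [hw]
      exact_mod_cast card_le_card this
    have h3 : (0:ℝ) ≤ (((Icc 1 N).filter (fun n => n.Prime ∧ ¬ n.Coprime d)).card : ℝ) :=
      Nat.cast_nonneg _
    rw [abs_le]
    constructor <;> linarith
  have e : piAP N d a - pin N / (Nat.totient d : ℝ) = (piAP N d a - pd / (Nat.totient d : ℝ)) +
      (pd - p1) / (Nat.totient d : ℝ) := by rw [← hp1]; ring
  unfold dE
  rw [e]
  refine (abs_add_le _ _).trans ?_
  have t2 : |(pd - p1) / (Nat.totient d : ℝ)| ≤ w * (1 / (Nat.totient d : ℝ)) := by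
    rw [abs_div, abs_of_pos hφ, mul_one_div]
    gcongr
  linarith

lemma PS_change' (N d f : ℕ) (hd : d ≠ 0) (h : f ∣ d) (ψ : DirichletCharacter ℂ f) :
    ‖PS N d (DirichletCharacter.changeLevel h ψ)‖ ^ 2 ≤
      2 * ‖PS N f ψ‖ ^ 2 + 2 * (d.primeFactors.card : ℝ) ^ 2 := by
  have h1 := PS_change N d f hd h ψ
  have h2 : ‖PS N d (DirichletCharacter.changeLevel h ψ)‖ ^ 2 ≤
      (‖PS N f ψ‖ + d.primeFactors.card) ^ 2 := pow_le_pow_left₀ (norm_nonneg _) h1 2
  nlinarith [sq_nonneg (‖PS N f ψ‖ - d.primeFactors.card)]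

/-- the large conductors, in mean square over the residues -/
theorem TT_ms (R d N : ℕ) (hd : 1 ≤ d) :
    ∑ a ∈ rr d, ‖TT R N d a‖ ^ 2 ≤
      (1 / (Nat.totient d : ℝ)) * (∑ f ∈ d.divisors.filter (fun f => f ≠ 1),
        if R < f then 2 * ∑ ψ ∈ Prim f, ‖PS N f ψ‖ ^ 2 else 0) +
      2 * (d.primeFactors.card : ℝ) ^ 2 := by
  classical
  have : NeZero d := ⟨by omega⟩
  have hφ1 : (1 : ℝ) ≤ Nat.totient d := by exact_mod_cast Nat.totient_pos.mpr (by omega)
  have hφ : (0 : ℝ) < Nat.totient d := by linarith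
  set w : ℝ := (d.primeFactors.card : ℝ) with hw
  have h1 : ∀ a, ‖TT R N d a‖ ^ 2 = (1 / (Nat.totient d : ℝ)) ^ 2 *
      ‖∑ χ ∈ XX d (fun f => R < f), χ ((a : ZMod d)⁻¹) * PS N d χ‖ ^ 2 := by
    intro a
    unfold TT
    rw [norm_mul, mul_pow, norm_div, norm_one, Complex.norm_natCast]
  simp only [h1]
  rw [← mul_sum]
  have h2 := orth d (XX d (fun f => R < f)) (fun χ => PS N d χ)
  have h3 : ∑ χ ∈ XX d (fun f => R < f), ‖PS N d χ‖ ^ 2 ≤
      (∑ f ∈ d.divisors.filter (fun f => f ≠ 1),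
        if R < f then 2 * ∑ ψ ∈ Prim f, ‖PS N f ψ‖ ^ 2 else 0) + (Nat.totient d : ℝ) * (2 * w ^ 2) := by
    have k1 : ∀ χ ∈ XX d (fun f => R < f), ‖PS N d χ‖ ^ 2 ≤
        max (‖PS N d χ‖ ^ 2 - 2 * w ^ 2) 0 + 2 * w ^ 2 := by
      intro χ _
      have := le_max_left (‖PS N d χ‖ ^ 2 - 2 * w ^ 2) 0
      linarith
    refine (sum_le_sum k1).trans ?_
    rw [sum_add_distrib, sum_const, nsmul_eq_mul]
    have k2 := step2P d (fun f => R < f) (fun χ => max (‖PS N d χ‖ ^ 2 - 2 * w ^ 2) 0)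
      (fun χ => le_max_right _ _) (fun f ψ => 2 * ‖PS N f ψ‖ ^ 2) (by
        intro f hf ψ
        apply max_le _ (by positivity)
        have := PS_change' N d f (by omega) hf ψ
        linarith)
    have k3 : ((XX d (fun f => R < f)).card : ℝ) ≤ (Nat.totient d : ℝ) := by
      have h6 := DirichletCharacter.card_eq_totient_of_hasEnoughRootsOfUnity ℂ d
      rw [← h6, Nat.card_eq_fintype_card]
      unfold XX
      exact_mod_cast (card_filter_le _ _)
    have k4 : ∑ f ∈ d.divisors.filter (fun f => f ≠ 1),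
        (if R < f then ∑ ψ ∈ Prim f, 2 * ‖PS N f ψ‖ ^ 2 else 0) =
        ∑ f ∈ d.divisors.filter (fun f => f ≠ 1),
        (if R < f then 2 * ∑ ψ ∈ Prim f, ‖PS N f ψ‖ ^ 2 else 0) := by
      apply sum_congr rfl
      intro f _
      rw [mul_sum]
    rw [k4] at k2
    exact add_le_add k2 (mul_le_mul_of_nonneg_right k3 (by positivity))
  calc (1 / (Nat.totient d : ℝ)) ^ 2 * ∑ a ∈ rr d,
        ‖∑ χ ∈ XX d (fun f => R < f), χ ((a : ZMod d)⁻¹) * PS N d χ‖ ^ 2
      ≤ (1 / (Nat.totient d : ℝ)) ^ 2 * ((Nat.totient d : ℝ) *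
        ((∑ f ∈ d.divisors.filter (fun f => f ≠ 1),
        if R < f then 2 * ∑ ψ ∈ Prim f, ‖PS N f ψ‖ ^ 2 else 0) + (Nat.totient d : ℝ) * (2 * w ^ 2))) := by
        apply mul_le_mul_of_nonneg_left _ (by positivity)
        exact h2.trans (mul_le_mul_of_nonneg_left h3 hφ.le)
    _ = _ := by field_simp

/-- number of characters of small conductor, weighted -/
theorem small_part (R d N : ℕ) (hd : 1 ≤ d) (NN : Finset ℕ) (hne : NN.Nonempty) (hN : N ∈ NN) :
    ∑ χ ∈ XX d (fun f => f ≤ R), ‖PS N d χ‖ ≤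
      (∑ f ∈ d.divisors.filter (fun f => f ≠ 1),
        if f ≤ R then ∑ ψ ∈ Prim f, MX NN hne f ψ else 0) +
      (R : ℝ) ^ 2 * (d.primeFactors.card : ℝ) := by
  classical
  have : NeZero d := ⟨by omega⟩
  set w : ℝ := (d.primeFactors.card : ℝ) with hw
  have hw0 : 0 ≤ w := Nat.cast_nonneg _
  have k1 : ∀ χ ∈ XX d (fun f => f ≤ R), ‖PS N d χ‖ ≤ max (‖PS N d χ‖ - w) 0 + w := by
    intro χ _
    have := le_max_left (‖PS N d χ‖ - w) 0
    linarith
  refine (sum_le_sum k1).trans ?_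
  rw [sum_add_distrib, sum_const, nsmul_eq_mul]
  have k2 := step2P d (fun f => f ≤ R) (fun χ => max (‖PS N d χ‖ - w) 0)
    (fun χ => le_max_right _ _) (fun f ψ => MX NN hne f ψ) (by
      intro f hf ψ
      apply max_le _ (MX_nonneg _ _ _ _)
      have h2 := PS_change N d f (by omega) hf ψ
      have h3 := le_MX NN hne f ψ hN
      linarith)
  have k3 : ((XX d (fun f => f ≤ R)).card : ℝ) ≤ (R : ℝ) ^ 2 := by
    have h1 := step2P d (fun f => f ≤ R) (fun _ => 1) (fun _ => zero_le_one) (fun _ _ => 1)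
      (fun _ _ _ => le_rfl)
    rw [sum_const, nsmul_eq_mul, mul_one] at h1
    refine h1.trans ?_
    rw [← sum_filter]
    calc ∑ f ∈ (d.divisors.filter (fun f => f ≠ 1)).filter (fun f => f ≤ R), ∑ _ψ ∈ Prim f, (1:ℝ)
        ≤ ∑ f ∈ (d.divisors.filter (fun f => f ≠ 1)).filter (fun f => f ≤ R), (R:ℝ) := by
          apply sum_le_sum
          intro f hf
          rw [mem_filter, mem_filter] at hf
          have hf1 : 1 ≤ f := Nat.pos_of_mem_divisors hf.1.1
          rw [sum_const, nsmul_eq_mul, mul_one]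
          refine (card_prim_le hf1).trans ?_
          have h3 : Nat.totient f ≤ R := (Nat.totient_le f).trans hf.2
          exact_mod_cast h3
      _ ≤ ∑ f ∈ Icc 1 R, (R:ℝ) := by
          apply sum_le_sum_of_subset_of_nonneg
          · intro f hf
            rw [mem_filter, mem_filter] at hf
            rw [mem_Icc]
            exact ⟨Nat.pos_of_mem_divisors hf.1.1, hf.2⟩
          · intro _ _ _; positivity
      _ = (R : ℝ) ^ 2 := by
          rw [sum_const, Nat.card_Icc, nsmul_eq_mul, Nat.add_sub_cancel]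
          ring
  exact add_le_add k2 (mul_le_mul_of_nonneg_right k3 hw0)

end Pool.Agent.H441R4.EH
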